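import Pool.Agent.MP_70de85_al.Defs
import Pool.Agent.MP_70de85_al.Mg.Glue

namespace Pool.Agent.Results.MP_70de85_al.InfiniteCritical

open Pool.Agent.MP_70de85_al

/-- There is an infinite critical associative ring. -/
theorem result : ∃ (R : Type) (_ : NonUnitalRing R), Infinite R ∧ IsCritical R :=
  exists_infinite_critical

end Pool.Agent.Results.MP_70de85_al.InfiniteCritical
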